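import Mathlib

/-!
Shifted polynomials and their coefficients.
-/

open MvPolynomial

namespace Pool.Agent.Helper7

variable {n r : ℕ}

/-- `g ↦ g(x + ∑ u_j e_{J j})` -/
noncomputable def shf (J : Fin r → Fin n) :
    MvPolynomial (Fin n) ℚ →ₐ[ℚ] MvPolynomial (Fin r) (MvPolynomial (Fin n) ℚ) :=
  aeval (fun v => C (X v) + ∑ j, if J j = v then X j else 0)

/-- the polynomials with coefficients in a subalgebra -/
def coefSub {R : Type*} [CommRing R] [Algebra ℚ R] (S : Subalgebra ℚ R) (r : ℕ) :
    Subalgebra ℚ (MvPolynomial (Fin r) R) where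
  carrier := {p | ∀ m, coeff m p ∈ S}
  mul_mem' := by
    classical
    intro p q hp hq m
    rw [coeff_mul]
    exact S.sum_mem fun x _ => S.mul_mem (hp _) (hq _)
  add_mem' := by
    intro p q hp hq m
    rw [coeff_add]
    exact S.add_mem (hp _) (hq _)
  algebraMap_mem' := by
    classical
    intro c m
    rw [MvPolynomial.algebraMap_apply, coeff_C]
    split_ifs
    · exact S.algebraMap_mem c
    · exact S.zero_mem

lemma mem_coefSub {R : Type*} [CommRing R] [Algebra ℚ R] {S : Subalgebra ℚ R}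
    {p : MvPolynomial (Fin r) R} : p ∈ coefSub S r ↔ ∀ m, coeff m p ∈ S := Iff.rfl

lemma coefSub_mono {R : Type*} [CommRing R] [Algebra ℚ R] {S S' : Subalgebra ℚ R} (h : S ≤ S')
    {p : MvPolynomial (Fin r) R} (hp : p ∈ coefSub S r) : p ∈ coefSub S' r :=
  fun m => h (hp m)

lemma C_mem_coefSub {R : Type*} [CommRing R] [Algebra ℚ R] {S : Subalgebra ℚ R} {a : R}
    (ha : a ∈ S) : (C a : MvPolynomial (Fin r) R) ∈ coefSub S r := by
  classical
  intro m
  rw [coeff_C]
  split_ifs
  · exact ha
  · exact S.zero_mem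

lemma X_mem_coefSub {R : Type*} [CommRing R] [Algebra ℚ R] {S : Subalgebra ℚ R} (j : Fin r) :
    (X j : MvPolynomial (Fin r) R) ∈ coefSub S r := by
  classical
  intro m
  rw [coeff_X]
  split_ifs
  · exact S.one_mem
  · exact S.zero_mem

lemma shf_X (J : Fin r → Fin n) (i : Fin n) :
    shf J (X i) = C (X i) + ∑ j, if J j = i then X j else 0 := by
  simp [shf]

/-- shifts of polynomials in the variables of `B` -/
lemma shf_mem_of_vars (J : Fin r → Fin n) {B : Finset (Fin n)} {p : MvPolynomial (Fin n) ℚ}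
    (hp : p.vars ⊆ B) {S : Subalgebra ℚ (MvPolynomial (Fin n) ℚ)} (hS : ∀ i ∈ B, X i ∈ S) :
    shf J p ∈ coefSub S r := by
  have h1 : p ∈ supported ℚ (B : Set (Fin n)) := by
    rw [mem_supported]
    exact_mod_cast hp
  rw [supported_eq_adjoin_X] at h1
  have h2 : Algebra.adjoin ℚ (X '' (B : Set (Fin n))) ≤ (coefSub S r).comap (shf J) := by
    rw [Algebra.adjoin_le_iff]
    rintro _ ⟨i, hi, rfl⟩
    rw [SetLike.mem_coe, Subalgebra.mem_comap, shf_X]
    refine (coefSub S r).add_mem (C_mem_coefSub (hS i hi)) ((coefSub S r).sum_mem fun j _ => ?_)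
    split_ifs
    · exact X_mem_coefSub j
    · exact (coefSub S r).zero_mem
  exact h2 h1

/-- shifts of polynomials not involving the shifted variables -/
lemma shf_eq_C (J : Fin r → Fin n) {p : MvPolynomial (Fin n) ℚ} (hp : ∀ j, J j ∉ p.vars) :
    shf J p = C p := by
  have := MvPolynomial.hom_congr_vars (p₁ := p) (p₂ := p)
    (f₁ := (shf J : MvPolynomial (Fin n) ℚ →+* MvPolynomial (Fin r) (MvPolynomial (Fin n) ℚ)))
    (f₂ := (C : MvPolynomial (Fin n) ℚ →+* MvPolynomial (Fin r) (MvPolynomial (Fin n) ℚ)))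
    (by
      ext c
      simp [shf])
    (by
      intro i hi _
      change shf J (X i) = C (X i)
      rw [shf_X, add_eq_left]
      refine Finset.sum_eq_zero fun j _ => ?_
      rw [if_neg]
      rintro rfl
      exact hp j hi) rfl
  exact this

end Pool.Agent.Helper7
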