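import Pool.Agent.Helper7.T3.Conv
import Pool.Agent.Helper8.Loc.Final

/-!
(H1) for programs.
-/

set_option linter.unusedSectionVars false
set_option linter.unusedSimpArgs false

open MvPolynomial Matrix

namespace Pool.Agent.Helper7.T3

open Pool.Agent.Helper8

lemma eval_aeval' {n : ℕ} {τ : Type*} (γ : Fin n → MvPolynomial τ ℚ) (f : MvPolynomial (Fin n) ℚ)
    (s : τ → ℚ) : MvPolynomial.eval s (aeval γ f) =
      MvPolynomial.eval (fun i => MvPolynomial.eval s (γ i)) f := by
  induction f using MvPolynomial.induction_on with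
  | C a => simp
  | add p q hp hq => simp only [map_add, hp, hq]
  | mul_X p i hp => simp only [map_mul, hp, aeval_X, eval_X]

/-- programs do not vanish on the generator -/
theorem gen_ne_zero {w k s d n : ℕ} {f : MvPolynomial (Fin n) ℚ} (h : Comp w k s d n f)
    (hf : f ≠ 0) :
    aeval (Helper5.genPoly n (LocalABP.exponent w k s)) f ≠ 0 := by
  intro h0
  obtain ⟨x, hx, hxf⟩ := Loc.hit_local w k s d n f h.computes hf
  apply hxf
  unfold LocalABP.points at hx
  obtain ⟨⟨z, y⟩, -, rfl⟩ := Finset.mem_image.1 hx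
  have h1 := congrArg (MvPolynomial.eval (Sum.elim (fun l => (z l : ℚ)) (fun l => (y l : ℚ)))) h0
  rw [map_zero, eval_aeval'] at h1
  simp only [Helper5.eval_genPoly, Helper5.gen, Sum.elim_inl, Sum.elim_inr] at h1
  exact h1

/-- **(H1)** for programs -/
theorem h1_prog {w k s d n : ℕ} (M0 : ℕ) (M : ℕ) (hM : M ≤ M0)
    (a : Fin M → MvPolynomial (Fin n) ℚ) (ha : ∀ i, Comp w k s d n (a i)) (J : Fin M → Fin n)
    (hdet : (Matrix.of fun i j => MvPolynomial.pderiv (J j) (a i)).det ≠ 0) :
    aeval (Helper5.genPoly n (LocalABP.exponent (M0.factorial * (M0 * (2 * w) + 1))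
      (M0.factorial * (M0 * k)) s))
      (Matrix.of fun i j => MvPolynomial.pderiv (J j) (a i)).det ≠ 0 := by
  have h1 := Comp.jacobian a ha J
  have hf : M.factorial ≤ M0.factorial := Nat.factorial_le hM
  exact gen_ne_zero (h1.mono (Nat.mul_le_mul hf (by
    have := Nat.mul_le_mul_right (2 * w) hM
    omega)) (Nat.mul_le_mul hf (Nat.mul_le_mul_right _ hM)) le_rfl le_rfl) hdet

end Pool.Agent.Helper7.T3
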