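import Pool.Agent.Helper7.T3.Prog
import Pool.Agent.Helper7.T3.Coef

/-!
Coefficients of shifts of programs.
-/

set_option linter.unusedSectionVars false
set_option linter.unusedSimpArgs false

open MvPolynomial Matrix

namespace Pool.Agent.Helper7.T3

variable {n r : ℕ} {α : Type} [Fintype α] [DecidableEq α]

open Classical in
/-- number of layers meeting the range of `J` -/
noncomputable def bad (J : Fin r → Fin n) (L : List (Layer n α)) : ℕ :=
  L.countP fun l => decide (∃ j, J j ∈ l.B)

lemma bad_le (J : Fin r → Fin n) (L : List (Layer n α)) : bad J L ≤ ∑ j, cnt (J j) L := by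
  classical
  induction L with
  | nil => simp [bad]
  | cons l L ih =>
    have h1 : ∀ i, cnt i (l :: L) = cnt i L + if i ∈ l.B then 1 else 0 := by
      intro i
      simp [cnt, List.countP_cons]
    simp only [h1, Finset.sum_add_distrib]
    unfold bad at ih ⊢
    rw [List.countP_cons]
    refine Nat.add_le_add ih ?_
    by_cases h : ∃ j, J j ∈ l.B
    · obtain ⟨j, hj⟩ := h
      have : (if J j ∈ l.B then 1 else 0) ≤ ∑ j, if J j ∈ l.B then 1 else 0 :=
        Finset.single_le_sum (f := fun j => if J j ∈ l.B then 1 else 0)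
          (fun _ _ => Nat.zero_le _) (Finset.mem_univ j)
      rw [if_pos hj] at this
      rw [if_pos (by simpa using ⟨j, hj⟩)]
      exact this
    · rw [if_neg (by simpa using h)]
      exact Nat.zero_le _

lemma comp_entry {w k s d : ℕ} {L : List (Layer n α)} (hα : Fintype.card α ≤ w)
    (h1 : ∀ l ∈ L, Good s d l) (h2 : ∀ i, cnt i L ≤ k) (p q : α) :
    Comp w k s d n (prd L p q) := by
  refine ⟨α, inferInstance, inferInstance, hα, L, Pi.single p 1, Pi.single q 1, h1, h2, ?_⟩
  unfold out
  have e : ∀ a : α, (fun b => (MvPolynomial.C ((Pi.single a 1 : α → ℚ) b) : MvPolynomial (Fin n) ℚ))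
      = Pi.single a 1 := by
    intro a
    funext b
    by_cases h : b = a
    · subst h; simp
    · simp [Pi.single_eq_of_ne h]
  rw [e, e, Matrix.mulVec_single_one, single_one_dotProduct]
  rfl

lemma comp_X {w k s d : ℕ} (i : Fin n) :
    Comp (w + 1) (k + 1) (s + 1) (d + 1) n (X i) := by
  refine ⟨Unit, inferInstance, inferInstance, by simp, [⟨{i}, fun _ _ => X i⟩], fun _ => 1,
    fun _ => 1, ?_, ?_, ?_⟩
  · intro l hl
    rw [List.mem_singleton] at hl
    subst hl
    refine ⟨by simp, fun _ _ => ?_⟩
    rw [vars_X, totalDegree_X]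
    exact ⟨subset_rfl, by omega⟩
  · intro j
    unfold cnt
    exact (List.countP_le_length).trans (by simp)
  · unfold out
    rw [prd_cons, prd_nil, mul_one]
    simp [dotProduct, Matrix.mulVec]

/-- the core of (H2) -/
lemma local_core {w k s d : ℕ} (J : Fin r → Fin n) (hα : Fintype.card α ≤ w)
    (L : List (Layer n α)) :
    ∀ L0 : List (Layer n α), (∀ l ∈ L0 ++ L, Good s d l) → (∀ i, cnt i (L0 ++ L) ≤ k) →
      (∀ l ∈ L0, ∀ j, J j ∉ l.B) →
      ∃ A : Finset (MvPolynomial (Fin n) ℚ), A.card ≤ (bad J L + 1) * w ^ 2 + bad J L * s ∧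
        (∀ a ∈ A, Comp (w + 1) (k + 1) (s + 1) (d + 1) n a) ∧
        ∀ p q, shf J (prd (L0 ++ L) p q) ∈ coefSub (Algebra.adjoin ℚ (A : Set _)) r := by
  classical
  -- good prefixes
  have hpre : ∀ L0 : List (Layer n α), (∀ l ∈ L0, Good s d l) → (∀ l ∈ L0, ∀ j, J j ∉ l.B) →
      ∀ p q, shf J (prd L0 p q) = MvPolynomial.C (prd L0 p q) := by
    intro L0
    induction L0 with
    | nil =>
      intro _ _ p q
      rw [prd_nil, Matrix.one_apply]
      split_ifs <;> simp
    | cons l L0 ih =>
      intro h1 h2 p q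
      rw [prd_cons, Matrix.mul_apply, map_sum, map_sum]
      refine Finset.sum_congr rfl fun a _ => ?_
      rw [map_mul, map_mul, ih (fun l hl => h1 l (List.mem_cons_of_mem _ hl))
        (fun l hl => h2 l (List.mem_cons_of_mem _ hl))]
      congr 1
      apply shf_eq_C
      intro j hj
      exact h2 l List.mem_cons_self j (((h1 l List.mem_cons_self).2 p a).1 hj)
  -- entries of a prefix
  have hent : ∀ L0 : List (Layer n α), (∀ l ∈ L0, Good s d l) → (∀ i, cnt i L0 ≤ k) →
      (∀ l ∈ L0, ∀ j, J j ∉ l.B) →
      ∃ A : Finset (MvPolynomial (Fin n) ℚ), A.card ≤ w ^ 2 ∧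
        (∀ a ∈ A, Comp (w + 1) (k + 1) (s + 1) (d + 1) n a) ∧
        ∀ p q, shf J (prd L0 p q) ∈ coefSub (Algebra.adjoin ℚ (A : Set _)) r := by
    intro L0 h1 h2 h3
    refine ⟨Finset.univ.image fun pq : α × α => prd L0 pq.1 pq.2, ?_, ?_, ?_⟩
    · refine Finset.card_image_le.trans ?_
      rw [Finset.card_univ, Fintype.card_prod, sq]
      exact Nat.mul_le_mul hα hα
    · intro a ha
      obtain ⟨⟨p, q⟩, -, rfl⟩ := Finset.mem_image.1 ha
      exact (comp_entry hα h1 h2 p q).mono (Nat.le_succ _) (Nat.le_succ _) (Nat.le_succ _)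
        (Nat.le_succ _)
    · intro p q
      rw [hpre L0 h1 h3]
      apply C_mem_coefSub
      apply Algebra.subset_adjoin
      rw [Finset.mem_coe]
      exact Finset.mem_image_of_mem (fun pq : α × α => prd L0 pq.1 pq.2)
        (Finset.mem_univ (p, q))
  induction L with
  | nil =>
    intro L0 h1 h2 h3
    rw [List.append_nil] at h1 h2 ⊢
    obtain ⟨A, hA1, hA2, hA3⟩ := hent L0 h1 h2 h3
    exact ⟨A, hA1.trans (by simp [bad]), hA2, hA3⟩
  | cons l L ih =>
    intro L0 h1 h2 h3
    by_cases hb : ∃ j, J j ∈ l.B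
    · -- a bad layer
      have hbad : bad J (l :: L) = bad J L + 1 := by
        unfold bad
        rw [List.countP_cons, if_pos (by simpa using hb)]
      have hc0 : ∀ i, cnt i L0 ≤ k := fun i => by
        have := h2 i
        rw [cnt_append] at this
        omega
      have hcL : ∀ i, cnt i ([] ++ L) ≤ k := fun i => by
        have := h2 i
        rw [cnt_append] at this
        have h4 : cnt i L ≤ cnt i (l :: L) := by
          unfold cnt
          rw [List.countP_cons]
          exact Nat.le_add_right _ _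
        rw [List.nil_append]
        omega
      obtain ⟨A0, hA0, hA0', hA0''⟩ := hent L0 (fun l hl => h1 l (List.mem_append_left _ hl)) hc0 h3
      obtain ⟨A1, hA1, hA1', hA1''⟩ := ih [] (fun l' hl' => h1 l' (by
        rw [List.nil_append] at hl'
        exact List.mem_append_right _ (List.mem_cons_of_mem _ hl'))) hcL (by simp)
      rw [List.nil_append] at hA1''
      refine ⟨A0 ∪ (l.B.image X ∪ A1), ?_, ?_, ?_⟩
      · refine (Finset.card_union_le _ _).trans ?_
        have h5 := Finset.card_union_le (l.B.image (X : Fin n → MvPolynomial (Fin n) ℚ)) A1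
        have h6 : (l.B.image (X : Fin n → MvPolynomial (Fin n) ℚ)).card ≤ s :=
          Finset.card_image_le.trans
            (h1 l (List.mem_append_right _ List.mem_cons_self)).1
        rw [hbad]
        calc A0.card + (l.B.image (X : Fin n → MvPolynomial (Fin n) ℚ) ∪ A1).card
            ≤ w ^ 2 + (s + ((bad J L + 1) * w ^ 2 + bad J L * s)) :=
              Nat.add_le_add hA0 (h5.trans (Nat.add_le_add h6 hA1))
          _ = (bad J L + 1 + 1) * w ^ 2 + (bad J L + 1) * s := by ring
      · intro a ha
        rcases Finset.mem_union.1 ha with ha | ha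
        · exact hA0' a ha
        rcases Finset.mem_union.1 ha with ha | ha
        · obtain ⟨i, -, rfl⟩ := Finset.mem_image.1 ha
          exact comp_X i
        · exact hA1' a ha
      · intro p q
        rw [prd_append, prd_cons, Matrix.mul_apply, map_sum]
        refine (coefSub _ r).sum_mem fun a _ => ?_
        rw [map_mul]
        refine (coefSub _ r).mul_mem (coefSub_mono (Algebra.adjoin_mono ?_) (hA0'' p a)) ?_
        · rw [Finset.coe_subset]
          exact Finset.subset_union_left
        rw [Matrix.mul_apply, map_sum]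
        refine (coefSub _ r).sum_mem fun b _ => ?_
        rw [map_mul]
        refine (coefSub _ r).mul_mem ?_ (coefSub_mono (Algebra.adjoin_mono ?_) (hA1'' b q))
        · refine shf_mem_of_vars J
            (((h1 l (List.mem_append_right _ List.mem_cons_self)).2 a b).1) fun i hi => ?_
          apply Algebra.subset_adjoin
          rw [Finset.mem_coe]
          exact Finset.mem_union_right _ (Finset.mem_union_left _ (Finset.mem_image_of_mem _ hi))
        · rw [Finset.coe_subset]
          exact Finset.subset_union_right.trans Finset.subset_union_right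
    · -- a good layer
      have hbad : bad J (l :: L) = bad J L := by
        unfold bad
        rw [List.countP_cons, if_neg (by simpa using hb), add_zero]
      have hassoc : L0 ++ l :: L = (L0 ++ [l]) ++ L := by simp
      rw [hassoc] at h1 h2 ⊢
      rw [hbad]
      refine ih (L0 ++ [l]) h1 h2 ?_
      intro l' hl' j hj
      rcases List.mem_append.1 hl' with hl' | hl'
      · exact h3 l' hl' j hj
      · rw [List.mem_singleton] at hl'
        subst hl'
        exact hb ⟨j, hj⟩

/-- from a finset to a `Fin t`-indexed family -/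
lemma exists_family {t : ℕ} (P : MvPolynomial (Fin n) ℚ → Prop) (h0 : P 0)
    (A : Finset (MvPolynomial (Fin n) ℚ)) (hA : A.card ≤ t) (hP : ∀ a ∈ A, P a) :
    ∃ a : Fin t → MvPolynomial (Fin n) ℚ, (∀ i, P (a i)) ∧ (A : Set _) ⊆ Set.range a := by
  classical
  refine ⟨fun i => A.toList.getD i 0, fun i => ?_, ?_⟩
  · by_cases h : (i : ℕ) < A.toList.length
    · simp only [List.getD_eq_getElem _ _ h]
      exact hP _ (Finset.mem_toList.1 (List.getElem_mem h))
    · simp only [List.getD_eq_default _ _ (not_lt.1 h)]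
      exact h0
  · intro a ha
    rw [Finset.mem_coe, ← Finset.mem_toList] at ha
    obtain ⟨i, hi, rfl⟩ := List.getElem_of_mem ha
    have hi' : i < t := by
      rw [Finset.length_toList] at hi
      omega
    exact ⟨⟨i, hi'⟩, List.getD_eq_getElem _ _ hi⟩

/-- **(H2)** for programs -/
theorem h2_prog {w k s d K : ℕ} {g : MvPolynomial (Fin n) ℚ} (hg : Comp w k s d n g)
    (hr : r ≤ K) (J : Fin r → Fin n) :
    ∃ a : Fin ((K * k + 1) * w ^ 2 + K * k * s) → MvPolynomial (Fin n) ℚ,
      (∀ i, Comp (w + 1) (k + 1) (s + 1) (d + 1) n (a i)) ∧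
      ∀ m, coeff m (shf J g) ∈ Algebra.adjoin ℚ (Set.range a) := by
  classical
  obtain ⟨α, i1, i2, hα, L, u, v, h1, h2, rfl⟩ := hg
  obtain ⟨A, hA1, hA2, hA3⟩ := local_core (k := k) J hα L [] (by simpa using h1)
    (by simpa using h2) (by simp)
  rw [List.nil_append] at hA3
  have hb : bad J L ≤ K * k := by
    refine (bad_le J L).trans ?_
    calc ∑ j, cnt (J j) L ≤ ∑ _j : Fin r, k := Finset.sum_le_sum fun j _ => h2 _
      _ = r * k := by simp
      _ ≤ K * k := Nat.mul_le_mul_right _ hr
  have hcard : A.card ≤ (K * k + 1) * w ^ 2 + K * k * s := by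
    refine hA1.trans (Nat.add_le_add (Nat.mul_le_mul_right _ (by omega))
      (Nat.mul_le_mul_right _ hb))
  obtain ⟨a, ha1, ha2⟩ := exists_family (fun a => Comp (w + 1) (k + 1) (s + 1) (d + 1) n a)
    ((Comp.zero _ _).mono (Nat.zero_le _) (Nat.zero_le _) le_rfl le_rfl) A hcard hA2
  refine ⟨a, ha1, ?_⟩
  have hfin : shf J (out L u v) ∈ coefSub (Algebra.adjoin ℚ (A : Set _)) r := by
    unfold out
    simp only [dotProduct, Matrix.mulVec, map_sum, map_mul]
    have hC : ∀ c : ℚ, shf J (MvPolynomial.C c) ∈
        coefSub (Algebra.adjoin ℚ (A : Set (MvPolynomial (Fin n) ℚ))) r := by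
      intro c
      have : shf J (MvPolynomial.C c) = algebraMap ℚ _ c := by
        rw [← MvPolynomial.algebraMap_eq]
        exact (shf J).commutes c
      rw [this]
      exact (coefSub _ r).algebraMap_mem c
    exact (coefSub _ r).sum_mem fun p _ => (coefSub _ r).mul_mem (hC _)
      ((coefSub _ r).sum_mem fun q _ => (coefSub _ r).mul_mem (hA3 p q) (hC _))
  intro m
  exact Algebra.adjoin_mono ha2 (hfin m)

end Pool.Agent.Helper7.T3
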