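import Pool.Agent.Helper7.T3.Prog

/-!
Conversion between the list form and the `Fin N` form of programs.
-/

set_option linter.unusedSectionVars false
set_option linter.unusedSimpArgs false

open MvPolynomial Matrix

namespace Pool.Agent.Helper7.T3

open Pool.Agent.Helper8

lemma countP_ofFn {γ : Type*} {N : ℕ} (F : Fin N → γ) (p : γ → Prop) [DecidablePred p] :
    (List.ofFn F).countP (fun x => decide (p x)) =
      (Finset.univ.filter fun l : Fin N => p (F l)).card := by
  rw [List.ofFn_eq_map, List.countP_map, Finset.card_def, Finset.filter_val,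
    ← Multiset.countP_eq_card_filter]
  have : (Finset.univ : Finset (Fin N)).val = (List.finRange N : Multiset (Fin N)) := rfl
  rw [this, Multiset.coe_countP]
  rfl

lemma Comp.of_computes {w k s d n : ℕ} {f : MvPolynomial (Fin n) ℚ}
    (h : LocalABP.Computes w k s d n f) : Comp w k s d n f := by
  obtain ⟨N, B, M, u, v, hs, hk, hd, rfl⟩ := h
  refine ⟨Fin w, inferInstance, inferInstance, by simp, List.ofFn fun l => ⟨B l, M l⟩, u, v,
    ?_, ?_, ?_⟩
  · intro l hl
    obtain ⟨i, rfl⟩ := (List.mem_ofFn' _ _).1 hl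
    exact ⟨hs i, hd i⟩
  · intro i
    unfold cnt
    rw [countP_ofFn (fun l => (⟨B l, M l⟩ : Layer n (Fin w))) (fun l => i ∈ l.B)]
    exact hk i
  · unfold out prd
    rw [List.map_ofFn]
    rfl

lemma Comp.computes {w k s d n : ℕ} {f : MvPolynomial (Fin n) ℚ}
    (h : Comp w k s d n f) : LocalABP.Computes w k s d n f := by
  obtain ⟨α, i1, i2, hα, L, u, v, h1, h2, rfl⟩ := h
  -- padding
  obtain ⟨ε⟩ : Nonempty ((α ⊕ Fin (w - Fintype.card α)) ≃ Fin w) := by
    refine ⟨Fintype.equivFinOfCardEq ?_⟩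
    rw [Fintype.card_sum, Fintype.card_fin]
    omega
  set β := Fin (w - Fintype.card α)
  let L1 : List (Layer n (α ⊕ β)) := L.map (inL β)
  have hL1 : ∀ l ∈ L1, Good s d l := by
    intro l hl
    obtain ⟨l0, hl0, rfl⟩ := List.mem_map.1 hl
    exact good_inL (h1 l0 hl0)
  have hprod : ∀ L' : List (Layer n (α ⊕ β)),
      (L'.map fun l => l.M.submatrix ε.symm ε.symm).prod = (prd L').submatrix ε.symm ε.symm := by
    intro L'
    induction L' with
    | nil => rw [List.map_nil, List.prod_nil, prd_nil, Matrix.submatrix_one_equiv]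
    | cons l L' ih =>
      rw [List.map_cons, List.prod_cons, ih, prd_cons, Matrix.submatrix_mul_equiv]
  refine ⟨L1.length, fun l => (L1.get l).B, fun l => (L1.get l).M.submatrix ε.symm ε.symm,
    Sum.elim u 0 ∘ ε.symm, Sum.elim v 0 ∘ ε.symm, fun l => (hL1 _ (List.get_mem _ _)).1, ?_,
    fun l a b => (hL1 _ (List.get_mem _ _)).2 _ _, ?_⟩
  · intro i
    rw [← countP_ofFn (fun l => L1.get l) (fun l => i ∈ l.B), List.ofFn_get]
    have := cnt_inL (β := β) i L
    unfold cnt at this
    rw [this]
    exact h2 i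
  · have e0 : (List.ofFn fun l => (L1.get l).M.submatrix ε.symm ε.symm) =
        L1.map fun l => l.M.submatrix ε.symm ε.symm := by
      conv_rhs => rw [← List.ofFn_get L1, List.map_ofFn]
      rfl
    rw [e0, hprod, prd_inL]
    unfold out
    have e1 : (fun a => (MvPolynomial.C ((Sum.elim u 0 ∘ ε.symm) a) : MvPolynomial (Fin n) ℚ)) =
        (Sum.elim (fun a => MvPolynomial.C (u a)) (0 : β → MvPolynomial (Fin n) ℚ)) ∘ ε.symm := by
      funext a
      simp only [Function.comp_apply]
      cases ε.symm a <;> simp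
    have e2 : (fun a => (MvPolynomial.C ((Sum.elim v 0 ∘ ε.symm) a) : MvPolynomial (Fin n) ℚ)) =
        (Sum.elim (fun a => MvPolynomial.C (v a)) (0 : β → MvPolynomial (Fin n) ℚ)) ∘ ε.symm := by
      funext a
      simp only [Function.comp_apply]
      cases ε.symm a <;> simp
    rw [e1, e2, Matrix.submatrix_mulVec_equiv, Equiv.symm_symm]
    rw [comp_equiv_dotProduct_comp_equiv]
    have e3 : ((Sum.elim (fun a => MvPolynomial.C (v a)) (0 : β → MvPolynomial (Fin n) ℚ)) ∘ ε.symm) ∘ ε =
        Sum.elim (fun a => MvPolynomial.C (v a)) (0 : β → MvPolynomial (Fin n) ℚ) := by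
      funext a; simp
    rw [e3, Matrix.fromBlocks_mulVec, sumElim_dotProduct_sumElim]
    simp [Function.comp_def]

end Pool.Agent.Helper7.T3
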