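import Pool.Agent.Helper8.Loc.Defs

/-!
The exponent used in the statement.
-/

namespace Pool.Agent.Helper7.SumProdABP

/-- `g` is a polynomial, of any degree, in `a` polynomials computed by programs of width `w` that
read every variable in at most `k` layers, with `s`-local layers of degree at most `d`. -/
def Factor (n a w k s d : ℕ) (g : MvPolynomial (Fin n) ℚ) : Prop :=
  ∃ q : Fin a → MvPolynomial (Fin n) ℚ,
    (∀ l, Pool.Agent.Helper8.LocalABP.Computes w k s d n (q l)) ∧
      g ∈ Algebra.adjoin ℚ (Set.range q)

/-- The number of local parameters. -/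
def params (K a w k s : ℕ) : ℕ := (K + 1) * a * ((K * k + 1) * w ^ 2 + K * k * s)

/-- The number of seeds. -/
def seeds (K a w k s : ℕ) : ℕ :=
  Pool.Agent.Helper8.LocalABP.exponent
      ((params K a w k s).factorial * (params K a w k s * (2 * (w + 1)) + 1))
      ((params K a w k s).factorial * (params K a w k s * (k + 1))) (s + 1) +
    params K a w k s + K

end Pool.Agent.Helper7.SumProdABP
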