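import Pool.Agent.Helper7.T3.Local
import Pool.Agent.Helper7.T3.H1
import Pool.Agent.Helper7.T3.Defs
import Pool.Agent.Helper8.T2.Final
import Pool.Agent.Helper6.T1.Comp
import Pool.Agent.Helper5.V.Post

/-!
The hitting theorem for products of programs of constant width.
-/

set_option linter.unusedSectionVars false
set_option linter.unusedSimpArgs false

open MvPolynomial

namespace Pool.Agent.Helper7.T3

open Pool.Agent.Helper8 SumProdABP VF

variable {n : ℕ}

/-- a point of the generator -/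
theorem exists_seed {K a w k s d : ℕ} {m : ℕ} (T : Fin m → MvPolynomial (Fin n) ℚ)
    (hT : ∀ i, T i ∈ Submonoid.closure {g | Factor n a w k s d g})
    (htr : ∀ b : Finset (Fin m), AlgebraicIndepOn ℚ T (b : Set (Fin m)) → b.card ≤ K)
    (f : MvPolynomial (Fin n) ℚ) (hf : f ∈ Algebra.adjoin ℚ (Set.range T)) (hf0 : f ≠ 0) :
    ∃ z, eval (Helper5.gen n (seeds K a w k s) z) f ≠ 0 := by
  classical
  set t0 := (K * k + 1) * w ^ 2 + K * k * s with ht0
  set t1 := (K + 1) * a * t0 with ht1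
  have h := interface K t1
    (Helper5.genPoly n (LocalABP.exponent
      (t1.factorial * (t1 * (2 * (w + 1)) + 1))
      (t1.factorial * (t1 * (k + 1))) (s + 1)))
    {g | Factor n a w k s d g}
    {b | Comp (w + 1) (k + 1) (s + 1) (d + 1) n b} ?_ ?_ T hT htr f hf hf0
  · obtain ⟨z, hz⟩ := exists_gen_of_Phi h
    have h2 : seeds K a w k s = LocalABP.exponent
      (t1.factorial * (t1 * (2 * (w + 1)) + 1))
      (t1.factorial * (t1 * (k + 1))) (s + 1) + (t1 + K) := by
      unfold seeds params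
      rw [Nat.add_assoc]
    rw [h2]
    exact ⟨z, hz⟩
  · intro g hg r hr J
    choose Q hQ hgQ using hg
    choose b hb hb2 using fun l l' => h2_prog (Comp.of_computes (hQ l l')) hr J
    refine ⟨fun i => b (finProdFinEquiv.symm (finProdFinEquiv.symm i).1).1
      (finProdFinEquiv.symm (finProdFinEquiv.symm i).1).2 (finProdFinEquiv.symm i).2,
      fun i => hb _ _ _, ?_⟩
    intro l mm
    refine Helper6.coeff_shR_mem _ J (Q l) _ (fun l' m' => ?_) (hgQ l) mm
    refine Algebra.adjoin_mono ?_ (hb2 l l' m')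
    rintro _ ⟨i, rfl⟩
    exact ⟨finProdFinEquiv (finProdFinEquiv (l, l'), i), by simp⟩
  · intro M hM b hb J hdet
    exact h1_prog t1 M hM b hb J hdet

/-- **Theorem** -/
theorem hit {K a w k s d : ℕ} {N m R : ℕ} (lam : Fin N → ℚ)
    (g : Fin N → Fin m → MvPolynomial (Fin n) ℚ) (e : Fin N → Fin m → ℕ)
    (hg : ∀ i j, Factor n a w k s d (g i j))
    (htr : ∀ b : Finset (Fin N),
      AlgebraicIndepOn ℚ (fun i => ∏ j, g i j ^ e i j) (b : Set (Fin N)) → b.card ≤ K)
    (h0 : ∑ i, C (lam i) * ∏ j, g i j ^ e i j ≠ 0) (f : MvPolynomial (Fin n) ℚ)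
    (hf : f ∣ ∑ i, C (lam i) * ∏ j, g i j ^ e i j)
    (hR : f.totalDegree ≤ R ∨
      2 ^ (N + 1) * (n * ∑ i, ∑ j, (g i j).totalDegree) + N ≤ R) :
    ∃ x ∈ LocalABP.points n (seeds K a w k s) R, eval x f ≠ 0 := by
  classical
  obtain ⟨z, hz⟩ := exists_seed (K := K) (a := a) (w := w) (k := k) (s := s) (d := d)
    (fun i => ∏ j, g i j ^ e i j) (fun i => Submonoid.prod_mem _ fun j _ => Submonoid.pow_mem _
      (Submonoid.subset_closure (show g i j ∈ {g | Factor n a w k s d g} from hg i j)) _)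
    htr (∑ i, C (lam i) * ∏ j, g i j ^ e i j) (by
    refine Subalgebra.sum_mem _ fun i _ => ?_
    rw [← algebraMap_eq, ← Algebra.smul_def]
    exact Subalgebra.smul_mem _ (Algebra.subset_adjoin (Set.mem_range_self i)) _) h0
  obtain ⟨f', hf'⟩ := hf
  have hzf : eval (Helper5.gen n (seeds K a w k s) z) f ≠ 0 := by
    rw [hf', map_mul] at hz
    exact left_ne_zero_of_mul hz
  rcases hR with hR | hR
  · exact Helper5.hit_grid f R hR _ ⟨z, hzf⟩
  rcases Nat.eq_zero_or_pos n with hn | hn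
  · subst hn
    refine Helper5.hit_grid f R ?_ _ ⟨z, hzf⟩
    have h1 : f.totalDegree = 0 := by
      rw [totalDegree_eq_zero_iff]
      intro m _ x
      exact x.elim0
    omega
  · obtain ⟨x, hx, hx0⟩ := T2.grid_hit (L := n * ∑ i, ∑ j, (g i j).totalDegree) lam g e
      (by rw [mul_comm]) z hz
    refine ⟨x, T2.grid_subset_points hn (Nat.succ_le_succ hR) hx, ?_⟩
    rw [hf', map_mul] at hx0
    exact left_ne_zero_of_mul hx0

end Pool.Agent.Helper7.T3
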