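import Pool.Agent.Helper8.Loc.Defs

/-!
Closure properties of the class of polynomials computed by constant width read-`k` programs.
-/

set_option linter.unusedSectionVars false
set_option linter.unusedSimpArgs false

open MvPolynomial Matrix

namespace Pool.Agent.Helper7.T3

/-- a layer: a set of variables and a matrix -/
structure Layer (n : ℕ) (α : Type) where
  B : Finset (Fin n)
  M : Matrix α α (MvPolynomial (Fin n) ℚ)

/-- number of layers whose set contains `i` -/
def cnt {n : ℕ} {α : Type} (i : Fin n) (L : List (Layer n α)) : ℕ :=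
  L.countP fun l => decide (i ∈ l.B)

/-- conditions on the entries -/
def Ok {n : ℕ} {α β : Type} (B : Finset (Fin n)) (d : ℕ)
    (M : Matrix α β (MvPolynomial (Fin n) ℚ)) : Prop :=
  ∀ a b, (M a b).vars ⊆ B ∧ (M a b).totalDegree ≤ d

/-- conditions on one layer -/
def Good {n : ℕ} {α : Type} (s d : ℕ) (l : Layer n α) : Prop :=
  l.B.card ≤ s ∧ Ok l.B d l.M

lemma ok_zero {n : ℕ} {α β : Type} (B : Finset (Fin n)) (d : ℕ) :
    Ok B d (0 : Matrix α β (MvPolynomial (Fin n) ℚ)) := by
  intro a b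
  rw [Matrix.zero_apply, vars_0, totalDegree_zero]
  exact ⟨Finset.empty_subset _, Nat.zero_le _⟩

lemma ok_one {n : ℕ} {α : Type} [DecidableEq α] (B : Finset (Fin n)) (d : ℕ) :
    Ok B d (1 : Matrix α α (MvPolynomial (Fin n) ℚ)) := by
  intro a b
  rw [Matrix.one_apply]
  split_ifs
  · rw [vars_one, totalDegree_one]
    exact ⟨Finset.empty_subset _, Nat.zero_le _⟩
  · rw [vars_0, totalDegree_zero]
    exact ⟨Finset.empty_subset _, Nat.zero_le _⟩

lemma ok_fromBlocks {n : ℕ} {α β α' β' : Type} {B : Finset (Fin n)} {d : ℕ}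
    {M11 : Matrix α β (MvPolynomial (Fin n) ℚ)} {M12 : Matrix α β' (MvPolynomial (Fin n) ℚ)}
    {M21 : Matrix α' β (MvPolynomial (Fin n) ℚ)} {M22 : Matrix α' β' (MvPolynomial (Fin n) ℚ)}
    (h11 : Ok B d M11) (h12 : Ok B d M12) (h21 : Ok B d M21) (h22 : Ok B d M22) :
    Ok B d (Matrix.fromBlocks M11 M12 M21 M22) := by
  rintro (a | a) (b | b)
  · rw [Matrix.fromBlocks_apply₁₁]; exact h11 a b
  · rw [Matrix.fromBlocks_apply₁₂]; exact h12 a b
  · rw [Matrix.fromBlocks_apply₂₁]; exact h21 a b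
  · rw [Matrix.fromBlocks_apply₂₂]; exact h22 a b

lemma ok_vecMulVec {n : ℕ} {α β : Type} (B : Finset (Fin n)) (d : ℕ) (u : α → ℚ) (v : β → ℚ) :
    Ok B d (Matrix.vecMulVec (fun a => (C (u a) : MvPolynomial (Fin n) ℚ))
      (fun b => C (v b))) := by
  intro a b
  rw [Matrix.vecMulVec_apply, ← C_mul, vars_C, totalDegree_C]
  exact ⟨Finset.empty_subset _, Nat.zero_le _⟩

variable {n : ℕ} {α β : Type} [Fintype α] [DecidableEq α] [Fintype β] [DecidableEq β]

/-- product of the matrices -/
noncomputable def prd (L : List (Layer n α)) : Matrix α α (MvPolynomial (Fin n) ℚ) :=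
  (L.map Layer.M).prod

/-- output -/
noncomputable def out (L : List (Layer n α)) (u v : α → ℚ) : MvPolynomial (Fin n) ℚ :=
  (fun a => C (u a)) ⬝ᵥ (prd L *ᵥ fun b => C (v b))

/-- computed by a program of width at most `w` -/
def Comp (w k s d n : ℕ) (f : MvPolynomial (Fin n) ℚ) : Prop :=
  ∃ (α : Type) (_ : Fintype α) (_ : DecidableEq α), Fintype.card α ≤ w ∧
    ∃ (L : List (Layer n α)) (u v : α → ℚ), (∀ l ∈ L, Good s d l) ∧ (∀ i, cnt i L ≤ k) ∧
      f = out L u v

lemma prd_nil : prd ([] : List (Layer n α)) = 1 := rfl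

lemma prd_cons (l : Layer n α) (L : List (Layer n α)) : prd (l :: L) = l.M * prd L := by
  simp [prd]

lemma prd_append (L L' : List (Layer n α)) : prd (L ++ L') = prd L * prd L' := by
  simp [prd]

lemma cnt_append (i : Fin n) (L L' : List (Layer n α)) : cnt i (L ++ L') = cnt i L + cnt i L' := by
  simp [cnt]

/-- embed on the left -/
noncomputable def inL (β : Type) [DecidableEq β] (l : Layer n α) : Layer n (α ⊕ β) :=
  ⟨l.B, Matrix.fromBlocks l.M 0 0 1⟩

/-- embed on the right -/
noncomputable def inR (α : Type) [DecidableEq α] (l : Layer n β) : Layer n (α ⊕ β) :=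
  ⟨l.B, Matrix.fromBlocks 1 0 0 l.M⟩

lemma prd_inL (L : List (Layer n α)) :
    prd (L.map (inL β)) = Matrix.fromBlocks (prd L) 0 0 1 := by
  induction L with
  | nil => rw [List.map_nil, prd_nil, prd_nil, Matrix.fromBlocks_one]
  | cons l L ih =>
    rw [List.map_cons, prd_cons, ih, prd_cons, inL, Matrix.fromBlocks_multiply]
    simp

lemma prd_inR (L : List (Layer n β)) :
    prd (L.map (inR α)) = Matrix.fromBlocks 1 0 0 (prd L) := by
  induction L with
  | nil => rw [List.map_nil, prd_nil, prd_nil, Matrix.fromBlocks_one]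
  | cons l L ih =>
    rw [List.map_cons, prd_cons, ih, prd_cons, inR, Matrix.fromBlocks_multiply]
    simp

lemma good_inL {s d : ℕ} {l : Layer n α} (h : Good s d l) : Good s d (inL β l) :=
  ⟨h.1, ok_fromBlocks h.2 (ok_zero _ _) (ok_zero _ _) (ok_one _ _)⟩

lemma good_inR {s d : ℕ} {l : Layer n β} (h : Good s d l) : Good s d (inR α l) :=
  ⟨h.1, ok_fromBlocks (ok_one _ _) (ok_zero _ _) (ok_zero _ _) h.2⟩

lemma cnt_inL (i : Fin n) (L : List (Layer n α)) : cnt i (L.map (inL β)) = cnt i L := by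
  rw [cnt, List.countP_map]; rfl

lemma cnt_inR (i : Fin n) (L : List (Layer n β)) : cnt i (L.map (inR α)) = cnt i L := by
  rw [cnt, List.countP_map]; rfl

lemma Comp.mono {w k s d w' k' s' d' : ℕ} {f : MvPolynomial (Fin n) ℚ} (h : Comp w k s d n f)
    (hw : w ≤ w') (hk : k ≤ k') (hs : s ≤ s') (hd : d ≤ d') : Comp w' k' s' d' n f := by
  obtain ⟨α, i1, i2, hα, L, u, v, h1, h2, rfl⟩ := h
  exact ⟨α, i1, i2, hα.trans hw, L, u, v, fun l hl => ⟨(h1 l hl).1.trans hs, fun a b =>
    ⟨((h1 l hl).2 a b).1, ((h1 l hl).2 a b).2.trans hd⟩⟩, fun i => (h2 i).trans hk, rfl⟩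

/-- sums -/
lemma Comp.add {w k w' k' s d : ℕ} {f g : MvPolynomial (Fin n) ℚ} (hf : Comp w k s d n f)
    (hg : Comp w' k' s d n g) : Comp (w + w') (k + k') s d n (f + g) := by
  obtain ⟨α, i1, i2, hα, L, u, v, h1, h2, rfl⟩ := hf
  obtain ⟨β, j1, j2, hβ, L', u', v', h1', h2', rfl⟩ := hg
  refine ⟨α ⊕ β, inferInstance, inferInstance, ?_, L.map (inL β) ++ L'.map (inR α),
    Sum.elim u u', Sum.elim v v', ?_, ?_, ?_⟩
  · rw [Fintype.card_sum]; omega
  · intro l hl
    rcases List.mem_append.1 hl with hl | hl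
    · obtain ⟨l0, hl0, rfl⟩ := List.mem_map.1 hl
      exact good_inL (h1 l0 hl0)
    · obtain ⟨l0, hl0, rfl⟩ := List.mem_map.1 hl
      exact good_inR (h1' l0 hl0)
  · intro i
    rw [cnt_append, cnt_inL, cnt_inR]
    exact Nat.add_le_add (h2 i) (h2' i)
  · unfold out
    have e1 : (fun a => C (Sum.elim u u' a)) =
        Sum.elim (fun a => (C (u a) : MvPolynomial (Fin n) ℚ)) (fun a => C (u' a)) := by
      funext a; cases a <;> rfl
    have e2 : (fun a => C (Sum.elim v v' a)) =
        Sum.elim (fun a => (C (v a) : MvPolynomial (Fin n) ℚ)) (fun a => C (v' a)) := by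
      funext a; cases a <;> rfl
    rw [prd_append, prd_inL, prd_inR, Matrix.fromBlocks_multiply, e1, e2,
      Matrix.fromBlocks_mulVec, sumElim_dotProduct_sumElim]
    simp [Function.comp_def]

/-- products -/
lemma Comp.mul {w k w' k' s d : ℕ} {f g : MvPolynomial (Fin n) ℚ} (hf : Comp w k s d n f)
    (hg : Comp w' k' s d n g) : Comp (w + w') (k + k') s d n (f * g) := by
  obtain ⟨α, i1, i2, hα, L, u, v, h1, h2, rfl⟩ := hf
  obtain ⟨β, j1, j2, hβ, L', u', v', h1', h2', rfl⟩ := hg
  set T : Layer n (α ⊕ β) := 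
    ⟨∅, Matrix.fromBlocks 0 (Matrix.vecMulVec (fun a => C (v a)) (fun b => C (u' b))) 0 0⟩ with hT
  refine ⟨α ⊕ β, inferInstance, inferInstance, ?_, L.map (inL β) ++ T :: L'.map (inR α),
    Sum.elim u 0, Sum.elim 0 v', ?_, ?_, ?_⟩
  · rw [Fintype.card_sum]; omega
  · intro l hl
    rcases List.mem_append.1 hl with hl | hl
    · obtain ⟨l0, hl0, rfl⟩ := List.mem_map.1 hl
      exact good_inL (h1 l0 hl0)
    · rcases List.mem_cons.1 hl with rfl | hl
      · exact ⟨by simp [hT], ok_fromBlocks (ok_zero _ _) (ok_vecMulVec _ _ _ _) (ok_zero _ _)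
          (ok_zero _ _)⟩
      · obtain ⟨l0, hl0, rfl⟩ := List.mem_map.1 hl
        exact good_inR (h1' l0 hl0)
  · intro i
    rw [cnt_append, cnt_inL]
    have : cnt i (T :: L'.map (inR α)) = cnt i L' := by
      rw [← cnt_inR (α := α) i L', cnt, cnt, List.countP_cons]
      simp [hT]
    rw [this]
    exact Nat.add_le_add (h2 i) (h2' i)
  · unfold out
    have e1 : (fun a => C (Sum.elim u 0 a)) =
        Sum.elim (fun a => (C (u a) : MvPolynomial (Fin n) ℚ)) (0 : β → _) := by
      funext a; cases a <;> simp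
    have e2 : (fun a => C (Sum.elim 0 v' a)) =
        Sum.elim (0 : α → _) (fun a => (C (v' a) : MvPolynomial (Fin n) ℚ)) := by
      funext a; cases a <;> simp
    rw [prd_append, prd_cons, prd_inL, prd_inR, hT, Matrix.fromBlocks_multiply,
      Matrix.fromBlocks_multiply, e1, e2,
      Matrix.fromBlocks_mulVec, sumElim_dotProduct_sumElim]
    simp only [Sum.elim_comp_inl, Sum.elim_comp_inr, Matrix.mulVec_zero, zero_dotProduct,
      Matrix.zero_mul, Matrix.mul_zero, add_zero, zero_add, Matrix.mul_one, Matrix.one_mul]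
    rw [← Matrix.mulVec_mulVec, ← Matrix.mulVec_mulVec]
    have e4 : ∀ y : β → MvPolynomial (Fin n) ℚ,
        Matrix.vecMulVec (fun a => (C (v a) : MvPolynomial (Fin n) ℚ)) (fun b => C (u' b)) *ᵥ y =
        ((fun b => C (u' b)) ⬝ᵥ y) • (fun a => C (v a)) := by
      intro y
      funext a
      simp only [Matrix.mulVec, dotProduct, Matrix.vecMulVec_apply, Pi.smul_apply, smul_eq_mul,
        Finset.sum_mul]
      refine Finset.sum_congr rfl fun b _ => by ring
    rw [e4, Matrix.mulVec_smul, dotProduct_smul, smul_eq_mul, mul_comm]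

lemma Comp.zero (s d : ℕ) : Comp 0 0 s d n 0 :=
  ⟨Empty, inferInstance, inferInstance, by simp, [], Empty.elim, Empty.elim, by simp,
    by simp [cnt], by simp [out]⟩

lemma Comp.C (c : ℚ) (s d : ℕ) : Comp 1 0 s d n (C c) :=
  ⟨Unit, inferInstance, inferInstance, by simp, [], fun _ => c, fun _ => 1, by simp,
    by simp [cnt], by simp [out, prd_nil]⟩

lemma Comp.C_mul {w k s d : ℕ} {f : MvPolynomial (Fin n) ℚ} (h : Comp w k s d n f) (c : ℚ) :
    Comp w k s d n (MvPolynomial.C c * f) := by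
  obtain ⟨α, i1, i2, hα, L, u, v, h1, h2, rfl⟩ := h
  refine ⟨α, i1, i2, hα, L, fun a => c * u a, v, h1, h2, ?_⟩
  unfold out
  have : (fun a => (MvPolynomial.C (c * u a) : MvPolynomial (Fin n) ℚ)) =
      (MvPolynomial.C c : MvPolynomial (Fin n) ℚ) •
        fun a => (MvPolynomial.C (u a) : MvPolynomial (Fin n) ℚ) := by
    funext a; simp
  rw [this, smul_dotProduct, smul_eq_mul]

lemma Comp.sum {ι : Type*} (S : Finset ι) {w k s d : ℕ} (f : ι → MvPolynomial (Fin n) ℚ)
    (h : ∀ i ∈ S, Comp w k s d n (f i)) :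
    Comp (S.card * w) (S.card * k) s d n (∑ i ∈ S, f i) := by
  classical
  induction S using Finset.induction_on with
  | empty => simpa using Comp.zero s d
  | insert a S ha ih =>
    rw [Finset.sum_insert ha, Finset.card_insert_of_notMem ha]
    exact ((h a (Finset.mem_insert_self a S)).add
      (ih fun j hj => h j (Finset.mem_insert_of_mem hj))).mono
      (by rw [Nat.add_mul, one_mul, add_comm]) (by rw [Nat.add_mul, one_mul, add_comm]) le_rfl le_rfl

lemma Comp.prod {ι : Type*} (S : Finset ι) {w k s d : ℕ} (f : ι → MvPolynomial (Fin n) ℚ)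
    (h : ∀ i ∈ S, Comp w k s d n (f i)) :
    Comp (S.card * w + 1) (S.card * k) s d n (∏ i ∈ S, f i) := by
  classical
  induction S using Finset.induction_on with
  | empty => simpa using Comp.C (n := n) 1 s d
  | insert a S ha ih =>
    rw [Finset.prod_insert ha, Finset.card_insert_of_notMem ha]
    exact ((h a (Finset.mem_insert_self a S)).mul
      (ih fun j hj => h j (Finset.mem_insert_of_mem hj))).mono
      (by rw [Nat.add_mul, one_mul]; omega) (by rw [Nat.add_mul, one_mul, add_comm]) le_rfl le_rfl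

/-! ### derivatives -/

lemma vars_pderiv_subset (j : Fin n) (p : MvPolynomial (Fin n) ℚ) :
    (pderiv j p).vars ⊆ p.vars := by
  classical
  intro i hi
  obtain ⟨m, hm, hmi⟩ := (mem_vars_iff_mem_support _).1 hi
  rw [mem_support_iff, coeff_pderiv] at hm
  refine (mem_vars_iff_mem_support _).2 ⟨m + Finsupp.single j 1, ?_, ?_⟩
  · rw [mem_support_iff]
    intro h
    apply hm
    rw [h, zero_mul]
  · rw [Finsupp.mem_support_iff] at hmi ⊢
    rw [Finsupp.add_apply]
    omega

lemma totalDegree_pderiv_le (j : Fin n) (p : MvPolynomial (Fin n) ℚ) :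
    (pderiv j p).totalDegree ≤ p.totalDegree := by
  classical
  refine Finset.sup_le ?_
  intro m hm
  rw [mem_support_iff, coeff_pderiv] at hm
  have h1 : m + Finsupp.single j 1 ∈ p.support := by
    rw [mem_support_iff]
    intro h
    apply hm
    rw [h, zero_mul]
  refine le_trans ?_ (le_totalDegree h1)
  rw [Finsupp.sum_fintype _ _ (by simp), Finsupp.sum_fintype _ _ (by simp)]
  exact Finset.sum_le_sum fun i _ => by rw [Finsupp.add_apply]; omega

lemma ok_pderiv {γ δ : Type} {B : Finset (Fin n)} {d : ℕ}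
    {M : Matrix γ δ (MvPolynomial (Fin n) ℚ)} (h : Ok B d M) (j : Fin n) :
    Ok B d (M.map (pderiv j)) := by
  intro a b
  rw [Matrix.map_apply]
  exact ⟨(vars_pderiv_subset j _).trans (h a b).1, (totalDegree_pderiv_le j _).trans (h a b).2⟩

lemma pderiv_matMul (j : Fin n) (M N : Matrix α α (MvPolynomial (Fin n) ℚ)) :
    (M * N).map (pderiv j) = M.map (pderiv j) * N + M * N.map (pderiv j) := by
  funext a b
  rw [Matrix.map_apply, Matrix.mul_apply, map_sum, Matrix.add_apply, Matrix.mul_apply,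
    Matrix.mul_apply, ← Finset.sum_add_distrib]
  refine Finset.sum_congr rfl fun c _ => ?_
  rw [pderiv_mul, Matrix.map_apply, Matrix.map_apply]

/-- dual numbers -/
noncomputable def dual (j : Fin n) (l : Layer n α) : Layer n (α ⊕ α) :=
  ⟨l.B, Matrix.fromBlocks l.M (l.M.map (pderiv j)) 0 l.M⟩

lemma prd_dual (j : Fin n) (L : List (Layer n α)) :
    prd (L.map (dual j)) = Matrix.fromBlocks (prd L) ((prd L).map (pderiv j)) 0 (prd L) := by
  induction L with
  | nil =>
    rw [List.map_nil, prd_nil, prd_nil]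
    have : (1 : Matrix α α (MvPolynomial (Fin n) ℚ)).map (pderiv j) = 0 := by
      funext a b
      rw [Matrix.map_apply, Matrix.one_apply]
      split_ifs <;> simp
    rw [this, Matrix.fromBlocks_one]
  | cons l L ih =>
    rw [List.map_cons, prd_cons, ih, prd_cons, dual, Matrix.fromBlocks_multiply, pderiv_matMul]
    simp [add_comm]

lemma Comp.pderiv {w k s d : ℕ} {f : MvPolynomial (Fin n) ℚ} (h : Comp w k s d n f) (j : Fin n) :
    Comp (2 * w) k s d n (MvPolynomial.pderiv j f) := by
  obtain ⟨α, i1, i2, hα, L, u, v, h1, h2, rfl⟩ := h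
  refine ⟨α ⊕ α, inferInstance, inferInstance, ?_, L.map (dual j),
    Sum.elim u 0, Sum.elim 0 v, ?_, ?_, ?_⟩
  · rw [Fintype.card_sum]; omega
  · intro l hl
    obtain ⟨l0, hl0, rfl⟩ := List.mem_map.1 hl
    exact ⟨(h1 l0 hl0).1, ok_fromBlocks (h1 l0 hl0).2 (ok_pderiv (h1 l0 hl0).2 j) (ok_zero _ _)
      (h1 l0 hl0).2⟩
  · intro i
    rw [cnt, List.countP_map]
    exact h2 i
  · unfold out
    have e1 : (fun a => MvPolynomial.C (Sum.elim u 0 a)) =
        Sum.elim (fun a => (MvPolynomial.C (u a) : MvPolynomial (Fin n) ℚ)) (0 : α → _) := by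
      funext a; cases a <;> simp
    have e2 : (fun a => MvPolynomial.C (Sum.elim 0 v a)) =
        Sum.elim (0 : α → _) (fun a => (MvPolynomial.C (v a) : MvPolynomial (Fin n) ℚ)) := by
      funext a; cases a <;> simp
    rw [prd_dual, e1, e2, Matrix.fromBlocks_mulVec, sumElim_dotProduct_sumElim]
    simp only [Sum.elim_comp_inl, Sum.elim_comp_inr, Matrix.mulVec_zero, zero_dotProduct,
      add_zero, zero_add]
    simp only [dotProduct, Matrix.mulVec, map_sum, pderiv_C_mul, Matrix.map_apply]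
    refine Finset.sum_congr rfl fun a _ => ?_
    congr 1
    refine Finset.sum_congr rfl fun b _ => ?_
    rw [mul_comm, pderiv_C_mul, mul_comm]

/-- determinants of matrices of derivatives -/
theorem Comp.jacobian {w k s d m : ℕ} (a : Fin m → MvPolynomial (Fin n) ℚ)
    (h : ∀ i, Comp w k s d n (a i)) (J : Fin m → Fin n) :
    Comp (m.factorial * (m * (2 * w) + 1)) (m.factorial * (m * k)) s d n
      (Matrix.of fun i j => MvPolynomial.pderiv (J j) (a i)).det := by
  classical
  rw [Matrix.det_apply]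
  have h1 := Comp.sum (Finset.univ : Finset (Equiv.Perm (Fin m)))
    (w := m * (2 * w) + 1) (k := m * k) (s := s) (d := d)
    (fun τ => Equiv.Perm.sign τ • ∏ i, (Matrix.of fun i j => MvPolynomial.pderiv (J j) (a i)) (τ i) i)
    (fun τ _ => by
      have h2 := Comp.prod (Finset.univ : Finset (Fin m))
        (fun i => (Matrix.of fun i j => MvPolynomial.pderiv (J j) (a i)) (τ i) i)
        (w := 2 * w) (k := k) (s := s) (d := d) (fun i _ => (h (τ i)).pderiv (J i))
      rw [Finset.card_univ, Fintype.card_fin] at h2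
      have h3 := h2.C_mul ((Equiv.Perm.sign τ : ℤ) : ℚ)
      have h4 : Equiv.Perm.sign τ • ∏ i, (Matrix.of fun i j =>
          MvPolynomial.pderiv (J j) (a i)) (τ i) i =
          MvPolynomial.C ((Equiv.Perm.sign τ : ℤ) : ℚ) *
          ∏ i, (Matrix.of fun i j => MvPolynomial.pderiv (J j) (a i)) (τ i) i := by
        rw [map_intCast, Units.smul_def, zsmul_eq_mul]
      rw [h4]
      exact h3)
  rwa [Finset.card_univ, Fintype.card_perm, Fintype.card_fin] at h1

end Pool.Agent.Helper7.T3
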